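import Pool.Agent.Lib.MP_c984cf_ag_N5.Top

/-!
# Smooth contractible hypersurfaces of log-general type exist in `ℂⁿ` for every `n ≥ 5`

The example in `ℂ⁵` (coordinates `t, u, v, a, b`) is `{Q(Φ(a, 1 + t v, t u, b)) = t}`, where
`Φ(g₁, g₂, g₃, g₄) = (g₁ g₂² + g₃ g₄³, g₁ g₃ + g₂ g₄)` and `Q(τ, c) = 1 + τ² c + τ c²`.
It is the affine modification of `ℂ⁴` along `D = {Q(Φ) = 0} = S × {Q = 0}`, `S = Φ⁻¹(1, 1)` being a
contractible surface of log-general type, with centre `D ∩ {g₂ = 1, g₃ = 0}`, which is mapped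
isomorphically onto `{Q = 0}`. In higher dimensions one modifies products with `ℂ` along two fibres.
-/

namespace Pool.Agent.Results.MP_c984cf_ag.DimensionAtLeastFive

open Pool.Agent.MP_c984cf_ag

/-- For every `n ≥ 5` there is a smooth contractible hypersurface of log-general type in `ℂⁿ`. -/
theorem result (n : ℕ) (hn : 5 ≤ n) :
    ∃ p : MvPolynomial (Fin n) ℂ, IsSmoothContractibleLG n p :=
  Pool.Agent.MP_c984cf_ag_N5.exists_all n hn

end Pool.Agent.Results.MP_c984cf_ag.DimensionAtLeastFive
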