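import Pool.Agent.Lib.MP_c984cf_ag.Step

/-!
# Smooth contractible hypersurfaces of log-general type: from dimension `n` to all `m ≥ n`

Let `D = {f = 0} ⊂ ℂⁿ` be a smooth contractible hypersurface of log-general type and `p ∈ D`.
Then `g(w, t) = f(p + t (t - 1) w) / (t (t - 1))` is a polynomial and `{g = 0} ⊂ ℂⁿ⁺¹` is again a
smooth contractible hypersurface of log-general type: it is the affine modification of `D × ℂ`
along the two fibres `t = 0` and `t = 1` with centres `(p, 0)` and `(p, 1)`.
-/

namespace Pool.Agent.Results.MP_c984cf_ag.DimensionStep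

open Pool.Agent.MP_c984cf_ag

/-- If `ℂⁿ` (`n ≥ 2`) contains a smooth contractible hypersurface of log-general type, then so
does `ℂᵐ` for every `m ≥ n`. -/
theorem result (n : ℕ) (hn : 2 ≤ n) (h : ∃ p : MvPolynomial (Fin n) ℂ, IsSmoothContractibleLG n p)
    (m : ℕ) (hm : n ≤ m) : ∃ q : MvPolynomial (Fin m) ℂ, IsSmoothContractibleLG m q := by
  induction m, hm using Nat.le_induction with
  | base => exact h
  | succ k hk ih =>
    obtain ⟨q, hq⟩ := ih
    exact step (le_trans hn hk) hq

end Pool.Agent.Results.MP_c984cf_ag.DimensionStep
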